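import Mathlib
import Pool.Agent.Lib.MP_b1ff30_co.P4f

set_option autoImplicit false

namespace Pool.Agent.Lib.MP_b1ff30_co.Old.BranchWidthEight

open Pool.Agent.Lib.MP_b1ff30_co

/-- Antipodal bases lie in the same component of the complementary basis graph, for every matroid
representable over a field of characteristic `p` whose ground set has a recursive bipartition `T`
with leaves of rank below `q` and, at each split, connectivities of sum below `2 q`, where `q = 8`
for `p = 2` and `q = p ^ 2` otherwise. -/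
theorem result (K : Type*) [Field K] (V : Type*) [AddCommGroup V] [Module K V]
    (α : Type) [Finite α] (M : Matroid α) (hE : M.E = Set.univ) (v : α → V)
    (hv : ∀ I : Set α, LinearIndepOn K v I → M.Indep I)
    (B : Set α) (hB : M.IsBase B) (hBc : M.IsBase Bᶜ)
    (hvB : LinearIndepOn K v B) (hvBc : LinearIndepOn K v Bᶜ)
    (ρ : Set α → ℕ) (hρ : ∀ S, ρ S = Module.finrank K (Submodule.span K (v '' S)))
    (q : ℕ) (hq : q = if ringChar K = 2 then 8 else ringChar K ^ 2)
    (T : Set (Set α)) (hU : Set.univ ∈ T)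
    (hT : ∀ S ∈ T, ρ S < q ∨
      ∃ S₁ ∈ T, ∃ S₂ ∈ T, S₁.Nonempty ∧ S₂.Nonempty ∧ Disjoint S₁ S₂ ∧ S₁ ∪ S₂ = S ∧
        (ρ S + ρ Sᶜ) + (ρ S₁ + ρ S₁ᶜ) + (ρ S₂ + ρ S₂ᶜ) < 3 * B.ncard + 2 * q) :
    Relation.ReflTransGen
      (fun X Y : Set α =>
        M.IsBase X ∧ M.IsBase Xᶜ ∧ M.IsBase Y ∧ M.IsBase Yᶜ ∧
          ∃ x ∈ X, ∃ y, y ∉ X ∧ Y = insert y (X \ {x}))
      B Bᶜ := by
  classical
  have _hE := hE
  let _i : Fintype α := Fintype.ofFinite α
  obtain ⟨B, rfl⟩ : ∃ B' : Finset α, (B' : Set α) = B := ⟨B.toFinset, Set.coe_toFinset B⟩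
  rw [← Finset.coe_compl] at hBc hvBc ⊢
  rw [Set.ncard_coe_finset] at hT
  refine reach_of8 M v hv B hB hBc hvB hvBc fun hcard g h1 h2 => ?_
  have hcc : ∀ X : Finset α, X.card = B.card → Xᶜ.card = B.card := fun X hX => by
    rw [Finset.card_compl]; omega
  have hge : ∀ S : Finset α, B.card ≤ ρ S + ρ (S : Set α)ᶜ := fun S => by
    have e1 := card_inter_le v hvB S
    have e2 := card_inter_le v hvB Sᶜ
    have e3 := Finset.card_sdiff_add_card_inter B S
    rw [Finset.coe_compl] at e2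
    rw [Finset.sdiff_eq_inter_compl, Finset.inter_comm _ Sᶜ, Finset.inter_comm _ S] at e3
    rw [hρ, hρ]
    omega
  have key : ∀ f : Finset α → K, UpZ B.card q f →
      (∀ X : Finset α, X.card = B.card → f X ≠ 0 → LinearIndepOn K v (X : Set α) ∧
        LinearIndepOn K v ((Xᶜ : Finset α) : Set α)) → UpZ B.card (B.card + 1) f := by
    intro f g1 g2
    refine branch_upz _ _ f g1 (fun S => ρ S + ρ (S : Set α)ᶜ - B.card) (fun X e1 e2 S => ?_)
      (fun S => (S : Set α) ∈ T) (by simpa using hU) fun S hS => ?_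
    · obtain ⟨e3, e4⟩ := g2 X e1 e2
      have e5 := bal_of v e3 e4 (hcc X e1) S
      have e6 := bal_of v e4 (by rwa [compl_compl]) (by rw [compl_compl, e1]) S
      rw [← Finset.sdiff_eq_inter_compl, Finset.sdiff_eq_inter_compl S Xᶜ, compl_compl, ← hρ,
        ← hρ] at e6
      rw [← hρ, ← hρ] at e5
      have e7 := hge S
      constructor <;> omega
    · rcases hT _ hS with e | ⟨S₁, e1, S₂, e2, e3, e4, e5, e6, e7⟩
      · refine Or.inl fun X e1 e2 => ?_
        have e3 := card_inter_le v (g2 X e1 e2).1 S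
        rw [← hρ] at e3
        omega
      · obtain ⟨S₁, rfl⟩ : ∃ S' : Finset α, (S' : Set α) = S₁ := ⟨S₁.toFinset, Set.coe_toFinset _⟩
        obtain ⟨S₂, rfl⟩ : ∃ S' : Finset α, (S' : Set α) = S₂ := ⟨S₂.toFinset, Set.coe_toFinset _⟩
        refine Or.inr ⟨S₁, S₂, e1, e2, Finset.disjoint_coe.1 e5,
          Finset.coe_injective (by rw [Finset.coe_union, e6]), e3, e4, ?_⟩
        have k1 := hge S
        have k2 := hge S₁
        have k3 := hge S₂
        omega
  refine core Finset.univ _ (B.card + 1) g hcard (by omega) (fun _ _ => Finset.subset_univ _)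
    (key g (h1 _ (Or.inr hq)).1 h2) (key _ (h1 _ (Or.inr hq)).2 fun X e1 e2 => ?_) B
    (Finset.subset_univ _) rfl
  rw [cp, if_pos (Finset.subset_univ _), ← Finset.compl_eq_univ_sdiff] at e2
  have e3 := h2 _ (hcc X e1) e2
  rw [compl_compl] at e3
  exact e3.symm

end Pool.Agent.Lib.MP_b1ff30_co.Old.BranchWidthEight
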