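import Mathlib
import Pool.Agent.Lib.MP_b1ff30_co.EC4

set_option autoImplicit false

namespace Pool.Agent.Lib.MP_b1ff30_co.Old.EvenCycle

open Pool.Agent.Lib.MP_b1ff30_co

/-- Antipodal bases lie in the same component of the complementary basis graph, for every
even-cycle matroid and for every matroid obtained from a graphic matroid by adding, or adding and
contracting, at most three binary vectors. -/
theorem result (α W : Type) [Finite α] [Finite W] [DecidableEq W] (s t : α → W) (σ : α → ZMod 2)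
    (V : Type*) [AddCommGroup V] [Module (ZMod 2) V]
    (π : ((W → ZMod 2) × ZMod 2) →ₗ[ZMod 2] V) (D : Set α) (v : α → V)
    (hD : ∀ e, e ∉ D → v e = π (Pi.single (s e) 1 + Pi.single (t e) 1, σ e))
    (hd : D.ncard + Module.finrank (ZMod 2) (LinearMap.ker π) = 0 ∨
      (σ = 0 ∧ D.ncard + Module.finrank (ZMod 2) (LinearMap.ker π) ≤ 3))
    (M : Matroid α) (hE : M.E = Set.univ)
    (hv : ∀ I : Set α, LinearIndepOn (ZMod 2) v I → M.Indep I)
    (B : Set α) (hB : M.IsBase B) (hBc : M.IsBase Bᶜ)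
    (hvB : LinearIndepOn (ZMod 2) v B) (hvBc : LinearIndepOn (ZMod 2) v Bᶜ) :
    Relation.ReflTransGen
      (fun X Y : Set α =>
        M.IsBase X ∧ M.IsBase Xᶜ ∧ M.IsBase Y ∧ M.IsBase Yᶜ ∧
          ∃ x ∈ X, ∃ y, y ∉ X ∧ Y = insert y (X \ {x}))
      B Bᶜ := by
  classical
  have _hE := hE
  let _i : Fintype α := Fintype.ofFinite α
  let _j : Fintype W := Fintype.ofFinite W
  obtain ⟨B, rfl⟩ : ∃ B' : Finset α, (B' : Set α) = B := ⟨B.toFinset, Set.coe_toFinset B⟩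
  obtain ⟨D, rfl⟩ : ∃ D' : Finset α, (D' : Set α) = D := ⟨D.toFinset, Set.coe_toFinset D⟩
  rw [← Finset.coe_compl] at hBc hvBc ⊢
  rw [Set.ncard_coe_finset] at hd
  refine reach_of_dep M v hv B hB hBc hvB hvBc fun T hT => ?_
  rw [qq, if_pos (ZMod.ringChar_zmod_n 2)] at hT
  let u : α → (W → ZMod 2) × ZMod 2 := fun e => (Pi.single (s e) 1 + Pi.single (t e) 1, σ e)
  have h1 : ∀ e ∈ T \ D, v e = π (u e) := fun e he => hD e (Finset.mem_sdiff.1 he).2
  have h2 : EC.rk u (T \ D) ≤ Module.finrank (ZMod 2) (Submodule.span (ZMod 2) (v '' (T : Set α)))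
      + Module.finrank (ZMod 2) (LinearMap.ker π) := by
    have _k : Module.Finite (ZMod 2) (Submodule.span (ZMod 2) (v '' (T : Set α))) :=
      Module.Finite.span_of_finite _ (Set.toFinite _)
    refine (rank_le_ker π _).trans (Nat.add_le_add_right (Submodule.finrank_mono
      (Submodule.span_mono ?_)) _)
    rintro _ ⟨_, ⟨e, he, rfl⟩, rfl⟩
    exact ⟨e, (Finset.mem_sdiff.1 he).1, h1 e he⟩
  have h3 := Finset.le_card_sdiff D T
  have h4 : ∀ X ⊆ T \ D, X.Nonempty → ∑ e ∈ X, u e = 0 → ¬ LinearIndepOn (ZMod 2) v X := by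
    intro X g1 ⟨e, g2⟩ g3
    refine not_linearIndepOn_finset_iff.2 ⟨fun _ => 1, ?_, e, g2, one_ne_zero⟩
    rw [Finset.sum_congr rfl (g := fun e => π (u e)) fun e he => by rw [one_smul, h1 e (g1 he)],
      ← map_sum, g3, map_zero]
  obtain ⟨k, h5, h6⟩ : ∃ k, (σ = 0 ∧ k = 5 ∨ k = 8) ∧ EC.rk u (T \ D) + k ≤ (T \ D).card := by
    rcases hd with g | ⟨g1, g2⟩
    · exact ⟨8, Or.inr rfl, by omega⟩
    · exact ⟨5, Or.inl ⟨g1, rfl⟩, by omega⟩
  obtain ⟨D₁, g1, D₂, g2, g3, g4, g5, g6, g7⟩ := EC.ep h5 _ (T \ D) u rfl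
    (fun e => ⟨⟨s e, t e, rfl⟩, fun g => congrFun g e⟩) h6
  exact ⟨D₁, g1.trans Finset.sdiff_subset, D₂, g2.trans Finset.sdiff_subset, g3,
    h4 D₁ g1 g4 g6, h4 D₂ g2 g5 g7⟩

end Pool.Agent.Lib.MP_b1ff30_co.Old.EvenCycle
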