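import Pool.Agent.Results.MP_b1ff30_co.CharTwoPerturbation

set_option autoImplicit false

/-! The statement of the earlier hand-in `GraphPerturbation`, derived from `CharTwoPerturbation`. -/

namespace Pool.Agent.Lib.MP_b1ff30_co.Old.GraphPerturbation

theorem result (α W : Type) [Finite α] [Finite W] [DecidableEq W] (s t : α → W)
    (a : ℕ) (σ : α → Fin a → ZMod 2) (V : Type*) [AddCommGroup V] [Module (ZMod 2) V]
    (π : ((W → ZMod 2) × (Fin a → ZMod 2)) →ₗ[ZMod 2] V) (D : Set α) (v : α → V)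
    (hD : ∀ e, e ∉ D → v e = π (Pi.single (s e) 1 + Pi.single (t e) 1, σ e))
    (hd : 3 * a + (D.ncard + Module.finrank (ZMod 2) (LinearMap.ker π)) ≤ 3)
    (M : Matroid α) (hE : M.E = Set.univ)
    (hv : ∀ I : Set α, LinearIndepOn (ZMod 2) v I → M.Indep I)
    (B : Set α) (hB : M.IsBase B) (hBc : M.IsBase Bᶜ)
    (hvB : LinearIndepOn (ZMod 2) v B) (hvBc : LinearIndepOn (ZMod 2) v Bᶜ) :
    Relation.ReflTransGen
      (fun X Y : Set α =>
        M.IsBase X ∧ M.IsBase Xᶜ ∧ M.IsBase Y ∧ M.IsBase Yᶜ ∧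
          ∃ x ∈ X, ∃ y, y ∉ X ∧ Y = insert y (X \ {x}))
      B Bᶜ :=
  Pool.Agent.Results.MP_b1ff30_co.CharTwoPerturbation.result (ZMod 2) α W s t a σ V π D v
    (fun e he => by simpa using hD e he) hd M hE hv B hB hBc hvB hvBc

end Pool.Agent.Lib.MP_b1ff30_co.Old.GraphPerturbation
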