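import Mathlib
import Pool.Agent.Lib.MP_b1ff30_co.NK4

set_option autoImplicit false

namespace Pool.Agent.Lib.MP_b1ff30_co.Old.NoK33

open Pool.Agent.Lib.MP_b1ff30_co

/-- Antipodal bases lie in the same component of the complementary basis graph, for every binary
matroid without a minor isomorphic to the cycle matroid of the complete bipartite graph on three
plus three vertices. -/
theorem result (α : Type) [Finite α] (M : Matroid α) (hE : M.E = Set.univ)
    (V : Type*) [AddCommGroup V] [Module (ZMod 2) V] (v : α → V)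
    (hv : ∀ I : Set α, M.Indep I ↔ LinearIndepOn (ZMod 2) v I)
    (hK : ¬ ∃ (C : Set α) (f : Fin 3 × Fin 3 → α), Function.Injective f ∧
      ∀ I : Set (Fin 3 × Fin 3), (M.contract C).Indep (f '' I) ↔
        LinearIndepOn (ZMod 2) (fun p : Fin 3 × Fin 3 =>
          ((Pi.single p.1 1, Pi.single p.2 1) : (Fin 3 → ZMod 2) × (Fin 3 → ZMod 2))) I)
    (B : Set α) (hB : M.IsBase B) (hBc : M.IsBase Bᶜ) :
    Relation.ReflTransGen
      (fun X Y : Set α =>
        M.IsBase X ∧ M.IsBase Xᶜ ∧ M.IsBase Y ∧ M.IsBase Yᶜ ∧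
          ∃ x ∈ X, ∃ y, y ∉ X ∧ Y = insert y (X \ {x}))
      B Bᶜ := by
  classical
  have _hE := hE
  let _i : Fintype α := Fintype.ofFinite α
  obtain ⟨B, rfl⟩ : ∃ B' : Finset α, (B' : Set α) = B := ⟨B.toFinset, Set.coe_toFinset B⟩
  rw [← Finset.coe_compl] at hBc ⊢
  refine reach_of8 M v (fun I => (hv I).2) B hB hBc ((hv _).1 hB.indep) ((hv _).1 hBc.indep)
    fun hcard g h1 h2 => ?_
  have hcc : ∀ X : Finset α, X.card = B.card → Xᶜ.card = B.card := fun X hX => by
    rw [Finset.card_compl]; omega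
  have hsp : ∀ X : Finset α, X.card = B.card → LinearIndepOn (ZMod 2) v (X : Set α) →
      ∀ e, v e ∈ Submodule.span (ZMod 2) (v '' (X : Set α)) := fun X e1 e2 e => by
    by_contra hn
    have he : e ∉ X := fun h => hn (Submodule.subset_span ⟨e, h, rfl⟩)
    obtain ⟨Y, e3, e4⟩ := ((hv _).2 (e2.insert hn)).exists_isBase_superset
    have e5 := Set.ncard_le_ncard e4
    rw [e3.ncard_eq_ncard_of_isBase hB, ← Finset.coe_insert, Set.ncard_coe_finset,
      Set.ncard_coe_finset, Finset.card_insert_of_notMem he] at e5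
    omega
  have key : ∀ f : Finset α → ZMod 2, UpZ B.card 8 f →
      (∀ X : Finset α, X.card = B.card → f X ≠ 0 → LinearIndepOn (ZMod 2) v (X : Set α)) →
      UpZ B.card (B.card + 1) f := by
    intro f g1 g2
    refine cover_upz' _ _ f g1 fun Z hZ => ?_
    by_cases k0 : ∃ X : Finset α, X.card = B.card ∧ Z ⊆ X ∧ f X ≠ 0
    swap
    · exact ⟨∅, fun X a1 a2 a3 => absurd ⟨X, a1, a2, a3⟩ k0⟩
    obtain ⟨X₀, k1, k2, k3⟩ := k0
    obtain ⟨C, k4, k5, k6⟩ := Finset.exists_subsuperset_card_eq (n := B.card - 5) k2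
      (by omega) (by omega)
    have k7 := g2 X₀ k1 k3
    obtain ⟨P, ι, k8, k9, k10⟩ := coords v k7 k5 (by omega) (hsp X₀ k1 k7)
    have k11 : ∀ e ∈ C, P e = 0 := fun e he => k8 (by
      have := congrFun k10 e
      rw [Function.comp_apply] at this
      rw [this, map_zero, Function.comp_apply, Submodule.mkQ_apply, Submodule.Quotient.mk_eq_zero]
      exact Submodule.subset_span ⟨e, he, rfl⟩)
    rcases NK.five P k9 with ⟨φ, ψ, a1, a2, a3⟩ | ⟨f', a1, a2, a3⟩
    · have k12 : ∀ χ : Fin 5 → ZMod 2, χ ≠ 0 → ∀ X : Finset α, X.card = B.card → f X ≠ 0 →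
          ∃ x ∈ X \ Z, χ ⬝ᵥ P x ≠ 0 := fun χ b1 X b2 b3 => by
        by_contra b4
        push Not at b4
        refine b1 (funext fun i => ?_)
        obtain ⟨e, b5⟩ := k9 i
        have b6 : P e ∈ Submodule.span (ZMod 2) (P '' (X : Set α)) := by
          have b7 := Submodule.mem_map_of_mem
            (f := Submodule.mkQ (Submodule.span (ZMod 2) (v '' (C : Set α)))) (hsp X b2 (g2 X b2 b3) e)
          rw [Submodule.map_span, ← Set.image_comp, ← k10, Set.image_comp, ← Submodule.map_span,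
            show Submodule.mkQ _ (v e) = ι (P e) from (congrFun k10 e).symm] at b7
          obtain ⟨y, b8, b9⟩ := b7
          exact k8 b9 ▸ b8
        have b7 : χ ⬝ᵥ P e = 0 := by
          refine Submodule.span_induction (p := fun y _ => χ ⬝ᵥ y = 0) ?_ (by simp) ?_ ?_ b6
          · rintro _ ⟨x, hx, rfl⟩
            by_cases b8 : x ∈ Z
            · rw [k11 x (k4 b8), dotProduct_zero]
            · exact b4 x (Finset.mem_sdiff.2 ⟨hx, b8⟩)
          · intro y z _ _ b8 b9
            rw [dotProduct_add, b8, b9, add_zero]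
          · intro c y _ b8
            rw [dotProduct_smul, b8, smul_zero]
        simpa [b5] using b7
      refine ⟨Finset.univ.filter fun e => φ ⬝ᵥ P e ≠ 0, fun X b1 _ b3 => ⟨fun b4 => ?_, fun b4 => ?_⟩⟩
      · obtain ⟨x, b5, b6⟩ := k12 φ a1 X b1 b3
        exact Finset.disjoint_left.1 b4 b5 (Finset.mem_filter.2 ⟨Finset.mem_univ _, b6⟩)
      · obtain ⟨x, b5, b6⟩ := k12 ψ a2 X b1 b3
        exact (Finset.mem_filter.1 (b4 b5)).2 ((a3 x).resolve_right b6)
    · refine absurd ⟨C, f', a1, fun I => ?_⟩ hK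
      have b1 := k7.mono (Finset.coe_subset.2 k5)
      have b2 : Disjoint (f' '' I) (C : Set α) := Set.disjoint_left.2 (by
        rintro _ ⟨p, -, rfl⟩ b
        exact a2 p (k11 _ b))
      rw [((hv _).2 b1).contract_indep_iff, and_iff_right b2, hv, Set.union_comm,
        ← b1.quotient_iff_union b2.symm, ← k10, ι.linearIndepOn_iff_of_injOn k8.injOn]
      exact a3 I
  have hq : (8 : ℕ) = qq (ZMod 2) := by rw [qq, if_pos (ZMod.ringChar_zmod_n 2)]
  refine core Finset.univ _ (B.card + 1) g hcard (by omega) (fun _ _ => Finset.subset_univ _)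
    (key g (h1 _ (Or.inr hq)).1 fun X a1 a2 => (h2 X a1 a2).1)
    (key _ (h1 _ (Or.inr hq)).2 fun X e1 e2 => ?_) B (Finset.subset_univ _) rfl
  rw [cp, if_pos (Finset.subset_univ _), ← Finset.compl_eq_univ_sdiff] at e2
  have e3 := (h2 _ (hcc X e1) e2).2
  rwa [compl_compl] at e3

end Pool.Agent.Lib.MP_b1ff30_co.Old.NoK33
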