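import Mathlib
import Pool.Agent.Lib.MP_b1ff30_co.P4f

set_option autoImplicit false

namespace Pool.Agent.Lib.MP_b1ff30_co.Old.PathWidthEight

open Pool.Agent.Lib.MP_b1ff30_co

/-- Antipodal bases lie in the same component of the complementary basis graph, for every matroid
representable over a field of characteristic `0`, or of characteristic `p` with a linear order of
the ground set all of whose cuts have connectivity at most `2 q - 2`, where `q = 8` for `p = 2`
and `q = p ^ 2` for odd `p`; more generally whenever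
the matroid has such a representable weak-map image in which the two antipodal bases stay
independent. -/
theorem result (K : Type*) [Field K] (V : Type*) [AddCommGroup V] [Module K V]
    (α : Type) [Finite α] (M : Matroid α) (hE : M.E = Set.univ) (v : α → V)
    (hv : ∀ I : Set α, LinearIndepOn K v I → M.Indep I)
    (B : Set α) (hB : M.IsBase B) (hBc : M.IsBase Bᶜ)
    (hvB : LinearIndepOn K v B) (hvBc : LinearIndepOn K v Bᶜ)
    (q : ℕ) (hq : q = if ringChar K = 2 then 8 else ringChar K ^ 2)
    (hchar : ringChar K = 0 ∨ ∃ c : α → ℕ, Function.Injective c ∧ ∀ t : ℕ,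
      Module.finrank K (Submodule.span K (v '' {x | c x < t})) +
        Module.finrank K (Submodule.span K (v '' {x | t ≤ c x})) + 2 ≤
          B.ncard + 2 * q) :
    Relation.ReflTransGen
      (fun X Y : Set α =>
        M.IsBase X ∧ M.IsBase Xᶜ ∧ M.IsBase Y ∧ M.IsBase Yᶜ ∧
          ∃ x ∈ X, ∃ y, y ∉ X ∧ Y = insert y (X \ {x}))
      B Bᶜ := by
  classical
  have _hE := hE
  let _i : Fintype α := Fintype.ofFinite α
  obtain ⟨B, rfl⟩ : ∃ B' : Finset α, (B' : Set α) = B := ⟨B.toFinset, Set.coe_toFinset B⟩
  rw [← Finset.coe_compl] at hBc hvBc ⊢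
  rw [Set.ncard_coe_finset] at hchar
  refine reach_of8 M v hv B hB hBc hvB hvBc fun hcard g h1 h2 => ?_
  by_cases h0 : ringChar K = 0
  · exact core Finset.univ _ (B.card + 1) g hcard (by omega) (fun _ _ => Finset.subset_univ _)
      (h1 _ (Or.inl h0)).1 (h1 _ (Or.inl h0)).2 B (Finset.subset_univ _) rfl
  obtain ⟨c, hc, h3⟩ := hchar.resolve_left h0
  have h4 : 0 < q := by
    rw [hq]
    split_ifs
    · omega
    · exact pow_pos (Nat.pos_of_ne_zero h0) _
  refine path_core q (2 * q - 2) (by omega) c hc B.card Finset.univ g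
    hcard (fun _ _ => Finset.subset_univ _) (h1 _ (Or.inr hq)).1 (h1 _ (Or.inr hq)).2 ?_ B
    (Finset.subset_univ _) rfl
  intro X _ hX hne t
  rw [← Finset.compl_eq_univ_sdiff] at hne ⊢
  have hXc : Xᶜ.card = B.card := by rw [Finset.card_compl]; omega
  have h5 : LinearIndepOn K v (X : Set α) ∧ LinearIndepOn K v ((Xᶜ : Finset α) : Set α) := by
    by_cases e : g X = 0
    · have e1 := h2 Xᶜ hXc fun e2 => hne (by rw [e, e2, mul_zero])
      rw [compl_compl] at e1
      exact e1.symm
    · exact h2 X hX e
  have h6 := bal_of v h5.1 h5.2 hXc (Finset.univ.filter fun z => t ≤ c z)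
  have e1 : ((Finset.univ.filter fun z => t ≤ c z : Finset α) : Set α) = {x | t ≤ c x} := by
    ext z; simp
  have e2 : {x | t ≤ c x}ᶜ = {x | c x < t} := by ext z; simp
  have e3 : (Finset.univ.filter fun z => t ≤ c z) ∩ X = X.filter fun z => t ≤ c z := by
    ext z; simp [and_comm]
  have e4 : (Finset.univ.filter fun z => t ≤ c z) \ X = Xᶜ.filter fun z => t ≤ c z := by
    ext z; simp [and_comm]
  rw [e1, e2, e3, e4] at h6
  have h7 := h3 t
  omega

end Pool.Agent.Lib.MP_b1ff30_co.Old.PathWidthEight
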