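import Mathlib
import Pool.Agent.Lib.MP_b1ff30_co.Main

set_option autoImplicit false

namespace Pool.Agent.Lib.MP_b1ff30_co.Old.Representable

open Pool.Agent.Lib.MP_b1ff30_co

/-- Antipodal bases lie in the same component of the complementary basis graph, for every matroid
representable over a field of characteristic `0` or of characteristic `p` with `rank ≤ 2 p - 2`;
more generally whenever the matroid has such a representable weak-map image in which the two
antipodal bases stay independent. -/
theorem result (K : Type*) [Field K] (V : Type*) [AddCommGroup V] [Module K V]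
    (α : Type) [Finite α] (M : Matroid α) (hE : M.E = Set.univ) (v : α → V)
    (hv : ∀ I : Set α, LinearIndepOn K v I → M.Indep I)
    (B : Set α) (hB : M.IsBase B) (hBc : M.IsBase Bᶜ)
    (hvB : LinearIndepOn K v B) (hvBc : LinearIndepOn K v Bᶜ)
    (hchar : ringChar K = 0 ∨ B.ncard + 2 ≤ 2 * ringChar K) :
    Relation.ReflTransGen
      (fun X Y : Set α =>
        M.IsBase X ∧ M.IsBase Xᶜ ∧ M.IsBase Y ∧ M.IsBase Yᶜ ∧
          ∃ x ∈ X, ∃ y, y ∉ X ∧ Y = insert y (X \ {x}))
      B Bᶜ := by
  classical
  have _hE := hE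
  let _i : Fintype α := Fintype.ofFinite α
  obtain ⟨B, rfl⟩ : ∃ B' : Finset α, (B' : Set α) = B := ⟨B.toFinset, Set.coe_toFinset B⟩
  rw [← Finset.coe_compl] at hBc hvBc ⊢
  rw [Set.ncard_coe_finset] at hchar
  have hcc : Bᶜ.card = B.card := by
    have := hBc.ncard_eq_ncard_of_isBase hB
    rwa [Set.ncard_coe_finset, Set.ncard_coe_finset] at this
  have hcard : Fintype.card α = 2 * B.card := by
    have := Finset.card_add_card_compl B
    omega
  have hbase : ∀ X : Finset α, X.card = B.card → LinearIndepOn K v (X : Set α) →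
      M.IsBase (X : Set α) := by
    intro X hX hi
    obtain ⟨Y, hY, hXY⟩ := (hv _ hi).exists_isBase_superset
    have h1 := hY.ncard_eq_ncard_of_isBase hB
    rw [Set.ncard_coe_finset] at h1
    have h2 : (X : Set α) = Y := Set.eq_of_subset_of_ncard_le hXY
      (by rw [Set.ncard_coe_finset]; omega)
    rw [h2]; exact hY
  let W : Submodule K V := Submodule.span K (v '' (B : Set α))
  have hmem : ∀ e, v e ∈ W := by
    intro e
    by_contra hn
    have he : e ∉ (B : Set α) := fun h => hn (Submodule.subset_span ⟨e, h, rfl⟩)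
    have hi : LinearIndepOn K v (insert e (B : Set α)) := hvB.insert hn
    have := hB.eq_of_subset_indep (hv _ hi) (Set.subset_insert _ _)
    exact he (this ▸ Set.mem_insert _ _)
  let u : α → W := fun e => ⟨v e, hmem e⟩
  have hu : ∀ I : Set α, LinearIndepOn K u I ↔ LinearIndepOn K v I := by
    intro I
    exact (W.subtype.linearIndependent_iff (v := fun x : I => u x) W.ker_subtype).symm
  have _j : Module.Finite K W := Module.Finite.span_of_finite K (Set.toFinite _)
  have hdim : Module.finrank K W = B.card := by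
    have h1 : W = Submodule.span K (Set.range (fun x : (B : Set α) => v x)) := by
      rw [← Set.image_eq_range]
    rw [h1, finrank_span_eq_card hvB]
    simp
  refine closed_compl u B hdim hcc hchar ((hu _).2 hvB) ((hu _).2 hvBc)
    (fun X : Finset α => Relation.ReflTransGen
      (fun X Y : Set α =>
        M.IsBase X ∧ M.IsBase Xᶜ ∧ M.IsBase Y ∧ M.IsBase Yᶜ ∧
          ∃ x ∈ X, ∃ y, y ∉ X ∧ Y = insert y (X \ {x})) (B : Set α) (X : Set α))
    Relation.ReflTransGen.refl ?_
  intro X Y hX hX1 hX2 hY hY1 hY2 hxy hp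
  have cX : Xᶜ.card = B.card := by rw [Finset.card_compl]; omega
  have cY : Yᶜ.card = B.card := by rw [Finset.card_compl]; omega
  refine hp.tail ⟨hbase X hX ((hu _).1 hX1), ?_, hbase Y hY ((hu _).1 hY1), ?_, ?_⟩
  · rw [← Finset.coe_compl]; exact hbase _ cX ((hu _).1 hX2)
  · rw [← Finset.coe_compl]; exact hbase _ cY ((hu _).1 hY2)
  · obtain ⟨x, hx, y, hy, rfl⟩ := hxy
    exact ⟨x, hx, y, hy, by simp⟩

end Pool.Agent.Lib.MP_b1ff30_co.Old.Representable
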