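import Pool.Agent.Lib.MP_b1ff30_co.SelfDual

/-!
Antipodal bases are connected in `N / e \ f` for an identically self-dual binary matroid `N`.
-/

open Set Matroid
open Pool.Agent.Lib.MP_b1ff30_co.SelfDual

namespace Pool.Agent.Lib.MP_b1ff30_co.Old.SelfDualMinor

theorem result {α : Type} [Finite α] (N : Matroid α) (hE : N.E = Set.univ) (hd : N✶ = N)
    (hev : ∀ C D, N.IsCircuit C → N.IsCircuit D → Even (C ∩ D).ncard) (e f : α) (hef : e ≠ f)
    (M : Matroid α) (hM : M = (N.contract {e}).delete {f}) (B : Set α) (hB : M.IsBase B)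
    (hB' : M.IsBase (M.E \ B)) :
    Relation.ReflTransGen
      (fun X Y : Set α =>
        M.IsBase X ∧ M.IsBase (M.E \ X) ∧ M.IsBase Y ∧ M.IsBase (M.E \ Y) ∧
          ∃ x ∈ X, ∃ y, y ∉ X ∧ Y = insert y (X \ {x}))
      B (M.E \ B) := by
  have hnl : ∀ x, N.Indep {x} := fun x => by
    rw [indep_singleton, ← not_isLoop_iff (by simp [hE])]
    intro h
    simpa using hev _ _ h.isCircuit h.isCircuit
  have hco : (N.contract {e}).Coindep {f} := coindep_contract_iff.2
    ⟨by rw [coindep_def, hd]; exact hnl f, by simpa using hef.symm⟩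
  have hb : ∀ X, M.IsBase X ↔ e ∉ X ∧ f ∉ X ∧ N.IsBase (insert e X) := fun X => by
    rw [hM, hco.delete_isBase_iff, (hnl e).contract_isBase_iff]
    simp only [union_singleton, disjoint_singleton_right]
    tauto
  have hc : ∀ X, M.E \ X = co e f X := fun X => by
    ext x
    simp only [hM, delete_ground, contract_ground, hE, co, mem_sdiff, mem_univ, mem_singleton_iff,
      mem_compl_iff, mem_insert_iff]
    tauto
  have hs : ∀ X, St N e f X → M.IsBase X ∧ M.IsBase (M.E \ X) := fun X h => by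
    have h' := h.co hE hd hef
    rw [hc, hb, hb]
    exact ⟨⟨h.1, h.2.1, h.2.2.1⟩, h'.1, h'.2.1, h'.2.2.1⟩
  have hX : St N e f B := by
    obtain ⟨h1, h2, h3⟩ := (hb B).1 hB
    refine ⟨h1, h2, h3, ?_⟩
    convert base_compl hE hd ((hb _).1 hB').2.2 using 1
    ext x
    simp only [hc, co, mem_compl_iff, mem_insert_iff]
    grind
  rw [hc]
  refine Relation.ReflTransGen.mono (fun X Y h => ?_) _ _ (main hE hd hef hev hX)
  exact ⟨(hs X h.1).1, (hs X h.1).2, (hs Y h.2.1).1, (hs Y h.2.1).2, h.2.2⟩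

end Pool.Agent.Lib.MP_b1ff30_co.Old.SelfDualMinor
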